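import Pool.Agent.TH706.LS.Ham

/-!
# Hamiltonicity: linear space for linearly many reads, even with an unlimited stack

The programs are deterministic, non-uniform, with random access to the adjacency bits, with `s` nodes
(a memory of `log s` bits) and with a stack (pushdown store) of unlimited height for arbitrary
symbols; the number of steps is unlimited too. By the non-uniform version of Cook's theorem (1971)
the programs of this kind with polynomially many nodes compute exactly the functions that have
NAND networks of polynomial size. So Hamiltonicity has networks of polynomial size if and only if it
is decided by programs of this kind with polynomially many nodes. The only resource that is bounded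
here, apart from the number of the nodes, is the number of the reads of adjacency bits. The theorem
says that for every constant `k` more than `k n ^ 2` reads are needed, even if there are `2 ^ (n ^ 2 / D)`
nodes, and even if the programs are randomised with one-sided error and find out that a graph is not
Hamiltonian only with probability `2 ^ (- n ^ 2 / D)`. With `2 ^ (n ^ 2)` nodes `n ^ 2` reads are
enough, so that this is optimal up to the constant `D`.

(Earlier files of this project, for Hamiltonicity: `LinearTimePrograms`, the same bound for
deterministic programs without a stack, that is, for devices that with polynomially many nodes
compute L/poly; and `StackTradeoff`, on the way of heads that scan the adjacency matrix and cannot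
jump. With a stack and with random access no bound was known for this problem.)

Proof. The quadratic forms of `Pool.Agent.W952.Frm` are put into graphs which are Hamiltonian if and
only if one of the forms is not zero (`Pool.Agent.W952.Ap.fam`), in such a way that a constant
fraction of all pairs of vertices carries a variable. A computation with a stack and `k n ^ 2` reads
is cut into a constant number of pieces which are determined by a few nodes and the answers to
their own reads (`Pool.Agent.W896.PD.blocks`); so the inputs with the same nodes are of the kind to
which the rectangle theorem for linear time applies (Ajtai; Beame, Saks, Sun and Vee;
`Pool.Agent.H554R2.Lin`), while the common zeros of the forms contain no large rectangle.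
-/

set_option autoImplicit false

namespace Pool.Agent.Results.MP_6b3410_lc.LinearReadsStack

open Pool.Agent.TH706.LS
open Pool.Agent.W896.PD (PP)

/-- `bits G` are the adjacency bits of the graph `G`, and `Ans P x t b` says that the program `P`
answers `b` on the input `x` after at most `t` reads. For every `k` there is a `D` such that for all
`n ≥ D` and every finite family of programs `P i` with a stack, with fewer than `2 ^ (n ^ 2 / D)`
nodes each, none of which answers `false` on a Hamiltonian graph with `n` vertices after at most
`k n ^ 2` reads: there is a graph that is not Hamiltonian on which fewer than a
`2 ^ (- ⌊n ^ 2 / D⌋)` fraction of the programs answer `false` after at most `k n ^ 2` reads. -/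
theorem result (k : ℕ) : ∃ D : ℕ, 0 < D ∧ ∀ n ≥ D, ∀ (I : Type) [Fintype I] [Nonempty I]
    (P : I → PP (Sym2 (Fin n)) Bool),
    (∀ i, Fintype.card (P i).State < 2 ^ (n ^ 2 / D)) →
    (∀ G : SimpleGraph (Fin n), G.IsHamiltonian → ∀ i, ¬ Ans (P i) (bits G) (k * n ^ 2) false) →
    ∃ G : SimpleGraph (Fin n), ¬ G.IsHamiltonian ∧
      2 ^ (n ^ 2 / D) * Nat.card {i : I // Ans (P i) (bits G) (k * n ^ 2) false} <
        Nat.card I :=
  ham_main k

end Pool.Agent.Results.MP_6b3410_lc.LinearReadsStack
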