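import Pool.Agent.TH272.Nec.HamHeavy

set_option autoImplicit false

/-!
# Hamiltonicity: shared gates that depend on many pairs of vertices

A circuit over the full binary basis (NAND gates are a special case) is written as a sequence of
formulas, one for each gate whose value is used more than once (a shared gate) and one for the
output; a leaf of a formula reads the input or refers to an earlier shared gate. Every circuit is of
this form. A shared gate is heavy if it depends on more than `d` pairs of vertices (directly or by
other shared gates). The circuits are random and have error probability at most `1 / 3` on every
graph with `n` vertices. For all `d` the expected numbers satisfy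
`n ^ 4 / (4 * 10 ^ 7 log₂ n) ≤ leaves + d (references + shared gates) +
  n ^ 2 / (16 log₂ n) (references to heavy gates + heavy gates)`.

* So without heavy gates the size is at least of order `n ^ 4 / (d log n)`, and in a circuit of linear
  size `K n ^ 2` there are `c n ^ 2` references to shared gates, or shared gates, that depend on at
  least `c_K n ^ 2 / log n` pairs.
* For `d = 0` the inequality says that there are `c n ^ 2` references and shared gates, or
  `c n ^ 4 / log n` leaves; the formula size is at least `c n ^ 4 / log n`.

The second part is for pairs which are divided into blocks in any way, and leaves which are arbitrary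
predicates of a block; a shared gate is heavy if it depends on more than `d` blocks. Each block of a
family `B` of matchings with at least `4 log₂ n` edges contributes `n ^ 2 / 10 ^ 6`.

Proof. For a string `z` over the pairs `(u, v)` of words of length `ℓ = log₂ n - 6` there are graphs
with `4 ℓ` disjoint further pairs, to be joined or not, which name an address `(u, v)`, such that the
graph is Hamiltonian if and only if `z (u, v) = 1`. A row for each bit and each value of this bit is
passed from the left to the right, or back if this value is the right one; on the way to the right it
picks up, for every word that follows this bit, one vertex that has this value, and in the end the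
vertices `u` and `v` only are left, which have to be joined. If the pairs outside of a block are
fixed then the references to shared gates which do not depend on the block are constants, so the
number of subfunctions is at most `2 ^ (1 + s) 16 ^ (r + l)`, where `s` is the number of shared gates
that depend on the block, `r` is the number of references to them and `l` is the number of leaves that
read the block.
-/

namespace Pool.Agent.Results.MP_6b3410_lc.LocalSharing

open Pool.Agent.TH272.Nec

theorem result (n : ℕ) (hn : 2 ^ 11 ≤ n) (d : ℕ) (Ω : Type) [Fintype Ω] (μ : Ω → ℝ) :
    (∀ C : Ω → Circuit (Sym2 (Fin n)) (fun _ => Bool),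
      Computes μ C (fun x => (SimpleGraph.fromEdgeSet {e | x e = true}).IsHamiltonian) →
        (n : ℝ) ^ 4 / (4 * 10 ^ 7 * Nat.log 2 n) ≤ mean μ (fun ω => (C ω).leaves) +
          d * (mean μ (fun ω => (C ω).refs) + mean μ (fun ω => (C ω).shared)) +
          n ^ 2 / (16 * Nat.log 2 n) *
            (mean μ (fun ω => (C ω).heavyRefs d) + mean μ (fun ω => (C ω).heavyGates d))) ∧
    (∀ (κ : Type) [DecidableEq κ] (block : Sym2 (Fin n) → κ) (B : Finset κ),
      (∀ i ∈ B, IsMatchingBlock block (4 * Nat.log 2 n) i) →
      ∀ C : Ω → Circuit κ (Item block), Computes μ C (fun x => (graph block x).IsHamiltonian) →
        (n : ℝ) ^ 2 / 10 ^ 6 * B.card ≤ mean μ (fun ω => (C ω).leaves) +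
          d * (mean μ (fun ω => (C ω).refs) + mean μ (fun ω => (C ω).shared)) +
          B.card *
            (mean μ (fun ω => (C ω).heavyRefs d) + mean μ (fun ω => (C ω).heavyGates d))) :=
  ⟨fun C hC => Ham.single_heavy hn μ C hC d, fun _ _ block B hB C hC =>
    Ham.blocks_heavy hn block B hB μ C hC d⟩

end Pool.Agent.Results.MP_6b3410_lc.LocalSharing
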