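import Pool.Agent.TH708.Ham.H5

/-!
Hamiltonicity: the trade-off between the size of a circuit and the number of its non-monotone
gates, for real circuits and two-sided error.

The circuits compute with real numbers, their monotone gates compute arbitrary nondecreasing real
functions of two arguments (Pudlák's model), and there are some arbitrary further gates, for
instance `t` NOT gates; `freedom` is the product of the numbers (fan-in + 1) over the further gates,
that is `2 ^ t` for `t` NOT gates. A randomised circuit is a finite nonempty family of circuits from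
which one is chosen uniformly at random; it accepts Hamiltonian graphs with probability at least
`p + n ^ (-δ)` and the others with probability at most `p` (`p = 0` and a family with one member for
an ordinary circuit).

Result: if the freedom is at most `F`, then the size is at least `n ^ (δ l)` for every `l` with
`l ^ 3 F ≤ n ^ (2 - ε)`. So with `φ log n` NOT gates, `0 ≤ φ < 2`, the size is at least
`exp (n ^ ((2 - φ) / 3 - ε))`; the exponent is `2/3` without NOT gates, and it goes to `0` only as
`φ` goes to `2`. This is the end of the range, since `2 log n` NOT gates are enough for circuits of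
polynomial size for all functions of the `n (n - 1) / 2` pairs that have such circuits (Markov,
Fischer). The results on Hamiltonicity we started from (`HMonotoneTwoThirds`, `NegationLimit`) are
for ordinary circuits; the first one has the exponent `2/3` for `F ≤ n ^ δ`, the second one is about
Boolean circuits and needs `l ^ 12 F ≤ n ^ (2 - ε)`.

The proof: many copies of a constraint satisfaction problem on a sparse expanding hypergraph are
embedded into one graph. The two halves of a tuple of values of a constraint belong to two groups of
clusters, and the numbers of the clusters of the first and of the second group that a Hamilton cycle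
selects are independent of each other, but the same for all constraints; this gives `K ^ 2` copies on
`l ^ (3 / 2) K` vertices, such that no pair of vertices depends on more than one bit of a copy. To the
copies we apply the average case version of the approximation method and the chain argument for
randomised circuits that were used for cliques (`MP_0a1b52_lc`, `NegationCurve`).
-/

namespace Pool.Agent.Results.MP_6b3410_lc.NegationCurve

/-- A real circuit with the input bits `Inp` and the gates `0, ..., s - 1`. Gate `i` has `w i`
inputs, namely `a i j`, each an input bit (`0` or `1`) or an earlier gate, and its value on the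
input `x` is `val x i`. The gates outside `T` compute nondecreasing functions of at most two real
numbers. The output of a gate `i` in `T` depends in an arbitrary way on the bits that tell whether
`θ i j` is at most the `j`-th input (a NOT gate, for instance). The circuit accepts if the value of
gate `out` is at least `τ`. -/
structure RealCircuit (Inp : Type) where
  s : ℕ
  T : Finset (Fin s)
  w : Fin s → ℕ
  a : (i : Fin s) → Fin (w i) → Inp ⊕ Fin s
  op : (i : Fin s) → (Fin (w i) → ℝ) → ℝ
  θ : (i : Fin s) → Fin (w i) → ℝ
  val : (Inp → Bool) → Fin s → ℝ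
  out : Fin s
  τ : ℝ
  earlier : ∀ i j k, a i j = Sum.inr k → k < i
  mono : ∀ i ∉ T, w i ≤ 2 ∧ Monotone (op i)
  free : ∀ i ∈ T, ∀ z z' : Fin (w i) → ℝ, (∀ j, θ i j ≤ z j ↔ θ i j ≤ z' j) → op i z = op i z'
  spec : ∀ x i, val x i = op i (fun j =>
    Sum.elim (fun p => if x p = true then (1 : ℝ) else 0) (val x) (a i j))

/-- The circuit accepts the input. -/
def RealCircuit.Accepts {Inp : Type} (C : RealCircuit Inp) (x : Inp → Bool) : Prop :=
  C.τ ≤ C.val x C.out

/-- The size: the number of gates plus the number of inputs of the gates in `T`. -/
def RealCircuit.size {Inp : Type} (C : RealCircuit Inp) : ℕ := C.s + ∑ i ∈ C.T, C.w i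

/-- The product of the numbers `w i + 1` over the gates in `T`. It is `1` if `T` is empty and
`2 ^ t` if `T` consists of `t` NOT gates. -/
def RealCircuit.freedom {Inp : Type} (C : RealCircuit Inp) : ℕ := ∏ i ∈ C.T, (C.w i + 1)

/-- The probability that the input is accepted by a circuit that is chosen uniformly at random from
the family `C`. -/
noncomputable def acceptance {R Inp : Type} (C : R → RealCircuit Inp) (x : Inp → Bool) : ℝ :=
  (Nat.card {ρ : R // (C ρ).Accepts x} : ℝ) / Nat.card R

/-- The input bits: the pairs of vertices. -/
abbrev Pairs (n : ℕ) : Type := {e : Finset (Fin n) // e.card = 2}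

/-- The graph on the vertices `0, ..., n - 1` whose edges are the pairs `e` with `x e = true`. -/
def graph {n : ℕ} (x : Pairs n → Bool) : SimpleGraph (Fin n) where
  Adj a b := ∃ h : a ≠ b, x ⟨{a, b}, Finset.card_pair h⟩ = true
  symm := ⟨by
    rintro a b ⟨h, hx⟩
    refine ⟨h.symm, ?_⟩
    have e : (⟨{b, a}, Finset.card_pair h.symm⟩ : Pairs n) = ⟨{a, b}, Finset.card_pair h⟩ :=
      Subtype.ext (Finset.pair_comm b a)
    rw [e]
    exact hx⟩
  loopless := ⟨fun a ⟨h, _⟩ => h rfl⟩

/-- For every `ε > 0` there are `δ > 0` and `l0` such that for all `n`, `l` with `l0 ≤ l ≤ n` and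
all real `F`, `p` the following holds. Let `l ^ 3 F ≤ n ^ (2 - ε)`. If a finite nonempty family of
real circuits whose numbers `freedom` are at most `F` accepts every Hamiltonian graph with `n`
vertices with probability at least `p + n ^ (-δ)` and all the others with probability at most `p`,
then some member has size at least `n ^ (δ l)`. -/
theorem result (ε : ℝ) (hε : 0 < ε) :
    ∃ δ : ℝ, 0 < δ ∧ ∃ l0 : ℕ, ∀ n l : ℕ, l0 ≤ l → l ≤ n → ∀ F : ℝ,
      (l : ℝ) ^ 3 * F ≤ (n : ℝ) ^ (2 - ε) →
      ∀ (R : Type) [Finite R] [Nonempty R] (C : R → RealCircuit (Pairs n)) (p : ℝ),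
        (∀ x, (graph x).IsHamiltonian → p + (n : ℝ) ^ (-δ) ≤ acceptance C x) →
        (∀ x, ¬ (graph x).IsHamiltonian → acceptance C x ≤ p) →
        (∀ ρ, ((C ρ).freedom : ℝ) ≤ F) →
        ∃ ρ, (n : ℝ) ^ (δ * l) ≤ ((C ρ).size : ℝ) := by
  obtain ⟨δ, hδ, l0, H⟩ := Pool.Agent.TH708.Ham.ham_curve_rand ε hε
  refine ⟨δ, hδ, l0, ?_⟩
  intro n l hl hln F hF R _ _ C p h1 h2 h3
  let _ : Fintype R := Fintype.ofFinite R
  have hR : (0 : ℝ) < Fintype.card R := by exact_mod_cast Fintype.card_pos
  have hacc : ∀ x, acceptance C x * Fintype.card R =
      ({ρ : R | (C ρ).Accepts x}.ncard : ℝ) := by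
    intro x
    unfold acceptance
    rw [Nat.card_eq_fintype_card (α := R), div_mul_cancel₀ _ hR.ne']
    rfl
  set C' : R → Pool.Agent.W969.MC.RC (Pairs n) := fun ρ => ⟨(C ρ).s, (C ρ).T, (C ρ).w, (C ρ).a,
    (C ρ).op, (C ρ).θ, (C ρ).val, (C ρ).out, (C ρ).τ, (C ρ).earlier, (C ρ).mono, (C ρ).free,
    (C ρ).spec⟩ with hC'
  have hF1 : 1 ≤ F := by
    obtain ⟨ρ⟩ := ‹Nonempty R›
    refine le_trans ?_ (h3 ρ)
    have : 1 ≤ (C ρ).freedom := Finset.one_le_prod' (fun i _ => Nat.le_add_left 1 _)
    exact_mod_cast this
  refine H n l hl hln F (by rw [max_eq_left hF1]; exact hF) R C' p ?_ ?_ h3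
  · intro x hx
    refine le_trans (mul_le_mul_of_nonneg_right ?_ hR.le) (le_of_eq (hacc x))
    exact h1 x hx
  · intro x hx
    refine le_trans (le_of_eq (hacc x).symm) (mul_le_mul_of_nonneg_right (h2 x hx) hR.le)

end Pool.Agent.Results.MP_6b3410_lc.NegationCurve
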