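import Mathlib
import Pool.Agent.TH697.Row.Final
import Pool.Agent.TH697.Row.Ham

/-!
# Formulas and branching programs for Hamiltonicity with arbitrary predicates of one row

The input is a graph with vertices `0, …, n - 1`, given by the rows of the upper half of its
adjacency matrix: item `i` consists of the bits `x i j`, `i < j` (see
`Pool/Agent/TH697/Row/GraphDefs.lean`). We consider

* formulas whose leaves are arbitrary predicates of one row and whose gates are arbitrary functions
  of two bits (`Pool/Agent/TH697/Form/Defs.lean`),
* branching programs whose nodes test arbitrary predicates of one row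
  (`Pool/Agent/TH697/Row/Defs.lean`),

which may be chosen at random, and which have to decide whether the graph has a Hamilton cycle with
error probability at most `1 / 3` on every graph. The formulas need `n ^ 3 / 4000` leaves on
average, the branching programs `n ^ 3 / (10000 log₂ n)` nodes.

Proof. For every `m × m` matrix `z` of bits, `m = (n - 1) / 6`, and for every vertex `i < n / 2`
there is a graph without edges at `i` such that all entries of `z` can be read off from the
Hamiltonicity of the graphs with two additional edges at `i`: two disjoint cycles, joined by `m ^ 2`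
possible edges which encode `z`, such that all other vertices have degree two. A formula with `r`
leaves for row `i` has at most `2 * 16 ^ r` subfunctions in row `i`, a branching program with `s`
nodes, `r` of them for row `i`, at most `(s + 2) ^ (2 r + 1)`. A coding argument shows that
`r = Ω(m ^ 2)` on average for formulas, and `r = Ω(m ^ 2 / log s)` for branching programs, also if
errors are allowed.
-/

set_option autoImplicit false

namespace Pool.Agent.Results.MP_6b3410_lc.RowPredicates

open Pool.Agent.TH697.Form Pool.Agent.TH697.Row

theorem rowQuery_ham {n : ℕ} (hn : 200 ≤ n) : RowQuery (n := n) ham := fun i hi =>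
  ham_query (by omega) (by omega) i (by omega)

theorem result :
    (∀ n : ℕ, 200 ≤ n → ∀ (Ω : Type) [Fintype Ω] (μ : Ω → ℝ), IsProb μ →
      ∀ F : Ω → Fml (Fin n) (fun _ => Fin n → Bool),
        Approximates μ (fun ω => (F ω).eval) ham → (n : ℝ) ^ 3 / 4000 ≤ expSize μ F) ∧
    (∀ n : ℕ, 4000 ≤ n → ∀ (Ω : Type) [Fintype Ω] (μ : Ω → ℝ), IsProb μ →
      ∀ (s : ℕ) (B : Ω → Program (Fin n) (fun _ => Fin n → Bool) s),
        Approximates μ (fun ω => (B ω).eval) ham →
        (n : ℝ) ^ 3 / (10000 * Real.logb 2 n) ≤ s) :=
  ⟨fun _ hn _ _ μ hμ F hF => formula_bound hn (rowQuery_ham hn) μ hμ F hF,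
   fun _ hn _ _ μ hμ _ B hB => program_bound hn (rowQuery_ham (by omega)) μ hμ B hB⟩

end Pool.Agent.Results.MP_6b3410_lc.RowPredicates
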